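import Pool.Agent.K1H51.PP.Mom

set_option autoImplicit false

/-! The main theorems. -/

namespace Pool.Agent.K1H51.PP

open Finset

/-- the general inequality -/
theorem main0 (p : ℕ) [Fact p.Prime] (χ : DirichletCharacter ℂ p) (hχ : χ ≠ 1) (A B : Finset (ZMod p))
    (r : ℕ) (hr : 1 ≤ r) (V : ℝ) (hV : 0 < V) :
    ∃ E : Finset (ZMod p), (E.card : ℝ) * V ^ (2 * r) ≤
      (2 * (r : ℝ) + 1) ^ (2 * r) * (min (A.card : ℝ) B.card * max (A.card : ℝ) B.card ^ r) * p +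
        2 * (r : ℝ) * ((A.card : ℝ) * B.card) ^ r * √(p : ℝ) ∧
      ∀ x y t : ZMod p, t ≠ 0 → (x + y) / t ∉ E →
        Bd χ (A.image fun a => x + t * a) (B.image fun b => y + t * b) V := by
  rcases le_total A.card B.card with h | h
  · obtain ⟨E, h1, h2⟩ := exc_le χ hχ A B h r hr V hV
    have h3 : (A.card : ℝ) ≤ B.card := by exact_mod_cast h
    refine ⟨E, ?_, fun x y t ht hE => affine χ A B V x y t ht (h2 _ hE)⟩
    rw [min_eq_left h3, max_eq_right h3]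
    refine h1.trans (le_of_eq ?_)
    ring
  · obtain ⟨E, h1, h2⟩ := exc_le χ hχ B A h r hr V hV
    have h3 : (B.card : ℝ) ≤ A.card := by exact_mod_cast h
    refine ⟨E, ?_, fun x y t ht hE => Bd_symm χ _ _ V (affine χ B A V y x t ht (h2 _ ?_))⟩
    · rw [min_eq_right h3, max_eq_left h3]
      refine h1.trans (le_of_eq ?_)
      ring
    · rwa [add_comm y x]

lemma pw (x y : ℝ) (hx : 0 ≤ x) (n : ℕ) : (x ^ y) ^ n = x ^ (y * n) := by
  rw [Real.rpow_mul hx, Real.rpow_natCast]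

lemma sq_pw (x : ℝ) (hx : 0 ≤ x) (r : ℕ) : (√x) ^ (2 * r) = x ^ r := by
  rw [pow_mul, Real.sq_sqrt hx]

/-- almost all shifts -/
theorem main1 (p : ℕ) [hp : Fact p.Prime] (χ : DirichletCharacter ℂ p) (hχ : χ ≠ 1) (A B : Finset (ZMod p))
    (hA : A.Nonempty) (hB : B.Nonempty) (r : ℕ) (hr : 1 ≤ r) (κ : ℝ) :
    ∃ E : Finset (ZMod p), (E.card : ℝ) ≤ ((2 * (r : ℝ) + 1) ^ (2 * r) + 2 * r) * (p : ℝ) ^ (1 - 2 * r * κ) ∧
      ∀ x y t : ZMod p, t ≠ 0 → (x + y) / t ∉ E →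
        Bd χ (A.image fun a => x + t * a) (B.image fun b => y + t * b)
          ((√(max (A.card : ℝ) B.card) * min (A.card : ℝ) B.card ^ (1 / (2 * r) : ℝ) +
            √((A.card : ℝ) * B.card) * (p : ℝ) ^ (-(1 / (4 * r)) : ℝ)) * (p : ℝ) ^ κ) := by
  have hp0 : (0 : ℝ) < p := by exact_mod_cast hp.out.pos
  have hr0 : (0 : ℝ) < r := by exact_mod_cast hr
  have ha : (0 : ℝ) < A.card := by exact_mod_cast hA.card_pos
  have hb : (0 : ℝ) < B.card := by exact_mod_cast hB.card_pos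
  set a : ℝ := (A.card : ℝ) with hae
  set b : ℝ := (B.card : ℝ) with hbe
  have hm : 0 < min a b := lt_min ha hb
  have hM : 0 < max a b := lt_max_of_lt_left ha
  set W1 : ℝ := √(max a b) * min a b ^ (1 / (2 * r) : ℝ) with hW1
  set W2 : ℝ := √(a * b) * (p : ℝ) ^ (-(1 / (4 * r)) : ℝ) with hW2
  have h1 : 0 < W1 := mul_pos (Real.sqrt_pos.2 hM) (Real.rpow_pos_of_pos hm _)
  have h2 : 0 < W2 := mul_pos (Real.sqrt_pos.2 (mul_pos ha hb)) (Real.rpow_pos_of_pos hp0 _)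
  have hW : 0 < W1 + W2 := add_pos h1 h2
  have hq : 0 < (p : ℝ) ^ κ := Real.rpow_pos_of_pos hp0 _
  obtain ⟨E, h3, h4⟩ := main0 p χ hχ A B r hr ((W1 + W2) * (p : ℝ) ^ κ) (mul_pos hW hq)
  rw [← hae, ← hbe] at h3
  refine ⟨E, ?_, h4⟩
  have e1 : min a b * max a b ^ r = W1 ^ (2 * r) := by
    rw [hW1, mul_pow, sq_pw _ hM.le, pw _ _ hm.le]
    have : (1 / (2 * r) : ℝ) * ((2 * r : ℕ) : ℝ) = 1 := by
      push_cast
      field_simp
    rw [this, Real.rpow_one, mul_comm]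
  have e2 : (a * b) ^ r * √(p : ℝ) = W2 ^ (2 * r) * p := by
    rw [hW2, mul_pow (√(a * b)), sq_pw _ (mul_pos ha hb).le, pw _ _ hp0.le]
    have : (-(1 / (4 * r)) : ℝ) * ((2 * r : ℕ) : ℝ) = -(1 / 2) := by
      push_cast
      field_simp
      norm_num
    rw [this, mul_assoc, Real.sqrt_eq_rpow]
    congr 1
    nth_rewrite 3 [← Real.rpow_one (p : ℝ)]
    rw [← Real.rpow_add hp0]
    norm_num
  have h5 : W1 ^ (2 * r) ≤ (W1 + W2) ^ (2 * r) := pow_le_pow_left₀ h1.le (by linarith) _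
  have h6 : W2 ^ (2 * r) ≤ (W1 + W2) ^ (2 * r) := pow_le_pow_left₀ h2.le (by linarith) _
  rw [mul_pow, pw _ _ hp0.le, e1, mul_assoc (2 * (r : ℝ)), e2] at h3
  have e3 : κ * ((2 * r : ℕ) : ℝ) = 2 * r * κ := by push_cast; ring
  rw [e3] at h3
  have h7 : (E.card : ℝ) * (p : ℝ) ^ (2 * r * κ) * (W1 + W2) ^ (2 * r) ≤
      ((2 * (r : ℝ) + 1) ^ (2 * r) + 2 * r) * p * (W1 + W2) ^ (2 * r) := by
    calc (E.card : ℝ) * (p : ℝ) ^ (2 * r * κ) * (W1 + W2) ^ (2 * r) =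
        (E.card : ℝ) * ((W1 + W2) ^ (2 * r) * (p : ℝ) ^ (2 * r * κ)) := by ring
      _ ≤ _ := h3
      _ ≤ (2 * (r : ℝ) + 1) ^ (2 * r) * (W1 + W2) ^ (2 * r) * p + 2 * (r : ℝ) * ((W1 + W2) ^ (2 * r) * p) := by
          gcongr
      _ = _ := by ring
  have h8 := le_of_mul_le_mul_right h7 (pow_pos hW _)
  rw [Real.rpow_sub hp0, Real.rpow_one, ← mul_div_assoc, le_div_iff₀ (Real.rpow_pos_of_pos hp0 _)]
  exact h8

/-- few exceptional shifts -/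
theorem main2 (ε : ℝ) (hε : 0 < ε) : ∃ δ : ℝ, 0 < δ ∧ ∃ p₀ : ℕ, ∀ (p : ℕ) [Fact p.Prime], p₀ ≤ p →
    ∀ χ : DirichletCharacter ℂ p, χ ≠ 1 → ∀ A B : Finset (ZMod p), (p : ℝ) ^ ε ≤ A.card → (p : ℝ) ^ ε ≤ B.card →
    ∃ E : Finset (ZMod p), (E.card : ℝ) ≤ (p : ℝ) ^ (1 / 2 + ε) ∧
      ∀ x y t : ZMod p, t ≠ 0 → (x + y) / t ∉ E →
        Bd χ (A.image fun a => x + t * a) (B.image fun b => y + t * b)
          ((p : ℝ) ^ (-δ) * √((A.card : ℝ) * B.card)) := by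
  obtain ⟨k, hk⟩ := exists_nat_ge (1 / (2 * ε))
  set r : ℕ := k + 1 with hr
  have hr1 : 1 ≤ r := by omega
  have hr0 : (0 : ℝ) < r := by exact_mod_cast hr1
  have hkε : 1 / 2 ≤ k * ε := by
    rw [div_le_iff₀ (by positivity)] at hk
    linarith
  have hev : ∃ p₀ : ℕ, ∀ p : ℕ, p₀ ≤ p → ((2 * (r : ℝ) + 1) ^ (2 * r) + 2 * r) ≤ (p : ℝ) ^ (ε / 2) := by
    have h := ((tendsto_rpow_atTop (by positivity : 0 < ε / 2)).comp (tendsto_natCast_atTop_atTop (R := ℝ)))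
    have h2 := h.eventually_ge_atTop ((2 * (r : ℝ) + 1) ^ (2 * r) + 2 * r)
    rw [Filter.eventually_atTop] at h2
    exact h2
  obtain ⟨p₀, hp₀⟩ := hev
  refine ⟨ε / (4 * r), by positivity, p₀, fun p hpf hpp χ hχ A B hA hB => ?_⟩
  have hp0 : (0 : ℝ) < p := by exact_mod_cast hpf.out.pos
  have ha : (0 : ℝ) < A.card := (Real.rpow_pos_of_pos hp0 _).trans_le hA
  have hb : (0 : ℝ) < B.card := (Real.rpow_pos_of_pos hp0 _).trans_le hB
  set a : ℝ := (A.card : ℝ) with hae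
  set b : ℝ := (B.card : ℝ) with hbe
  have hm : 0 < min a b := lt_min ha hb
  have hM : 0 < max a b := lt_max_of_lt_left ha
  have hab : 0 < a * b := mul_pos ha hb
  have hq : 0 < (p : ℝ) ^ (-(ε / (4 * r))) := Real.rpow_pos_of_pos hp0 _
  obtain ⟨E, h3, h4⟩ := main0 p χ hχ A B r hr1 ((p : ℝ) ^ (-(ε / (4 * r))) * √(a * b))
    (mul_pos hq (Real.sqrt_pos.2 hab))
  rw [← hae, ← hbe] at h3
  refine ⟨E, ?_, h4⟩
  have hmin : (p : ℝ) ^ ε ≤ min a b := le_min hA hB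
  have hsq : √(p : ℝ) ≤ min a b ^ k := by
    calc √(p : ℝ) = (p : ℝ) ^ (1 / 2 : ℝ) := Real.sqrt_eq_rpow _
      _ ≤ (p : ℝ) ^ (ε * k) := Real.rpow_le_rpow_of_exponent_le (by exact_mod_cast hpf.out.one_lt.le) (by linarith)
      _ = ((p : ℝ) ^ ε) ^ k := (pw _ _ hp0.le _).symm
      _ ≤ _ := pow_le_pow_left₀ (Real.rpow_nonneg hp0.le _) hmin _
  have h5 : min a b * max a b ^ r * √(p : ℝ) ≤ (a * b) ^ r := by
    calc min a b * max a b ^ r * √(p : ℝ) ≤ min a b * max a b ^ r * min a b ^ k := by gcongr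
      _ = (min a b * max a b) ^ r := by rw [mul_pow, hr, pow_succ (min a b)]; ring
      _ = _ := by rw [min_mul_max]
  have h6 : min a b * max a b ^ r * p ≤ (a * b) ^ r * √(p : ℝ) := by
    calc min a b * max a b ^ r * p = min a b * max a b ^ r * √(p : ℝ) * √(p : ℝ) := by
          rw [mul_assoc _ (√(p : ℝ)), Real.mul_self_sqrt hp0.le]
      _ ≤ _ := by gcongr
  rw [mul_pow, sq_pw _ hab.le, pw _ _ hp0.le] at h3
  have e3 : -(ε / (4 * r)) * ((2 * r : ℕ) : ℝ) = -(ε / 2) := by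
    push_cast
    field_simp
    norm_num
  rw [e3] at h3
  have h7 : (E.card : ℝ) * (p : ℝ) ^ (-(ε / 2)) * (a * b) ^ r ≤
      ((2 * (r : ℝ) + 1) ^ (2 * r) + 2 * r) * √(p : ℝ) * (a * b) ^ r := by
    calc (E.card : ℝ) * (p : ℝ) ^ (-(ε / 2)) * (a * b) ^ r =
        (E.card : ℝ) * ((p : ℝ) ^ (-(ε / 2)) * (a * b) ^ r) := by ring
      _ ≤ _ := h3
      _ = (2 * (r : ℝ) + 1) ^ (2 * r) * (min a b * max a b ^ r * p) +
            2 * (r : ℝ) * ((a * b) ^ r * √(p : ℝ)) := by ring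
      _ ≤ (2 * (r : ℝ) + 1) ^ (2 * r) * ((a * b) ^ r * √(p : ℝ)) +
            2 * (r : ℝ) * ((a * b) ^ r * √(p : ℝ)) := by gcongr
      _ = _ := by ring
  have h8 := le_of_mul_le_mul_right h7 (pow_pos hab _)
  have h9 : (E.card : ℝ) ≤ ((2 * (r : ℝ) + 1) ^ (2 * r) + 2 * r) * √(p : ℝ) * (p : ℝ) ^ (ε / 2) := by
    calc (E.card : ℝ) = (E.card : ℝ) * (p : ℝ) ^ (-(ε / 2)) * (p : ℝ) ^ (ε / 2) := by
          rw [mul_assoc, ← Real.rpow_add hp0]
          simp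
      _ ≤ _ := mul_le_mul_of_nonneg_right h8 (Real.rpow_nonneg hp0.le _)
  calc (E.card : ℝ) ≤ _ := h9
    _ ≤ (p : ℝ) ^ (ε / 2) * √(p : ℝ) * (p : ℝ) ^ (ε / 2) := by
        gcongr
        exact hp₀ p hpp
    _ = _ := by
        rw [Real.sqrt_eq_rpow, ← Real.rpow_add hp0, ← Real.rpow_add hp0]
        congr 1
        ring

lemma Bd_mono {p : ℕ} (χ : DirichletCharacter ℂ p) (P Q : Finset (ZMod p)) (V V' : ℝ) (hV : V ≤ V')
    (h : Bd χ P Q V) : Bd χ P Q V' := fun f g =>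
  (h f g).trans (mul_le_mul_of_nonneg_right hV (by positivity))

/-- progressions -/
theorem main3 (p : ℕ) [hp : Fact p.Prime] (χ : DirichletCharacter ℂ p) (hχ : χ ≠ 1) (N : ℕ) (hN : 1 ≤ N)
    (r : ℕ) (hr : 1 ≤ r) (hNp : N ^ (2 * r) ≤ p) (κ : ℝ) :
    ∃ E : Finset (ZMod p), (E.card : ℝ) ≤ ((2 * (r : ℝ) + 1) ^ (2 * r) + 2 * r) * (p : ℝ) ^ (1 - 2 * r * κ) ∧
      ∀ x y t : ZMod p, t ≠ 0 → (x + y) / t ∉ E →
        Bd χ ((range N).image fun n : ℕ => x + t * (n : ZMod p)) ((range N).image fun n : ℕ => y + t * (n : ZMod p))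
          (2 * (N : ℝ) ^ (1 / 2 + 1 / (2 * r) : ℝ) * (p : ℝ) ^ κ) := by
  classical
  have hp0 : (0 : ℝ) < p := by exact_mod_cast hp.out.pos
  have hr0 : (0 : ℝ) < r := by exact_mod_cast hr
  have hN0 : (0 : ℝ) < N := by exact_mod_cast hN
  have hN1 : (1 : ℝ) ≤ N := by exact_mod_cast hN
  have hNle : N ≤ p := le_trans (Nat.le_self_pow (by omega) N) hNp
  set A : Finset (ZMod p) := (range N).image fun n : ℕ => (n : ZMod p) with hA
  have hcard : A.card = N := by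
    rw [hA, card_image_of_injOn, card_range]
    intro i hi j hj hij
    rw [mem_coe, mem_range] at hi hj
    have e := congrArg ZMod.val hij
    simp only [ZMod.val_cast_of_lt (hi.trans_le hNle), ZMod.val_cast_of_lt (hj.trans_le hNle)] at e
    exact e
  have hne : A.Nonempty := card_pos.1 (by omega)
  obtain ⟨E, h1, h2⟩ := main1 p χ hχ A A hne hne r hr κ
  refine ⟨E, h1, fun x y t ht hE => ?_⟩
  have e1 : ∀ z : ZMod p, A.image (fun a => z + t * a) = (range N).image fun n : ℕ => z + t * (n : ZMod p) := by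
    intro z
    rw [hA, image_image]
    rfl
  have h3 := h2 x y t ht hE
  rw [e1, e1] at h3
  refine Bd_mono χ _ _ _ _ ?_ h3
  rw [hcard, max_self, min_self, Real.sqrt_mul_self hN0.le]
  refine mul_le_mul_of_nonneg_right ?_ (Real.rpow_nonneg hp0.le _)
  have h4 : √(N : ℝ) * (N : ℝ) ^ (1 / (2 * r) : ℝ) = (N : ℝ) ^ (1 / 2 + 1 / (2 * r) : ℝ) := by
    rw [Real.sqrt_eq_rpow, ← Real.rpow_add hN0]
  have h5 : (N : ℝ) * (p : ℝ) ^ (-(1 / (4 * r)) : ℝ) ≤ (N : ℝ) ^ (1 / 2 + 1 / (2 * r) : ℝ) := by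
    have h6 : (N : ℝ) ^ (1 / 2 - 1 / (2 * r) : ℝ) ≤ (p : ℝ) ^ (1 / (4 * r) : ℝ) := by
      have h7 : (N : ℝ) ≤ (p : ℝ) ^ (1 / (2 * r) : ℝ) := by
        have h8 : ((N : ℝ) ^ (2 * r)) ^ (1 / (2 * r) : ℝ) ≤ (p : ℝ) ^ (1 / (2 * r) : ℝ) := by
          apply Real.rpow_le_rpow (by positivity) _ (by positivity)
          exact_mod_cast hNp
        rw [← Real.rpow_natCast, ← Real.rpow_mul hN0.le] at h8
        have e : ((2 * r : ℕ) : ℝ) * (1 / (2 * r) : ℝ) = 1 := by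
          push_cast
          field_simp
        rwa [e, Real.rpow_one] at h8
      calc (N : ℝ) ^ (1 / 2 - 1 / (2 * r) : ℝ) ≤ (N : ℝ) ^ (1 / 2 : ℝ) := by
            apply Real.rpow_le_rpow_of_exponent_le hN1
            have : (0 : ℝ) < 1 / (2 * r) := by positivity
            linarith
        _ ≤ ((p : ℝ) ^ (1 / (2 * r) : ℝ)) ^ (1 / 2 : ℝ) := Real.rpow_le_rpow hN0.le h7 (by norm_num)
        _ = _ := by
            rw [← Real.rpow_mul hp0.le]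
            congr 1
            field_simp
            norm_num
    calc (N : ℝ) * (p : ℝ) ^ (-(1 / (4 * r)) : ℝ) =
        (N : ℝ) ^ (1 / 2 + 1 / (2 * r) : ℝ) * (N : ℝ) ^ (1 / 2 - 1 / (2 * r) : ℝ) *
          (p : ℝ) ^ (-(1 / (4 * r)) : ℝ) := by
          rw [← Real.rpow_add hN0]
          have : (1 / 2 + 1 / (2 * r) + (1 / 2 - 1 / (2 * r)) : ℝ) = 1 := by ring
          rw [this, Real.rpow_one]
      _ ≤ (N : ℝ) ^ (1 / 2 + 1 / (2 * r) : ℝ) * (p : ℝ) ^ (1 / (4 * r) : ℝ) *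
          (p : ℝ) ^ (-(1 / (4 * r)) : ℝ) := by gcongr
      _ = _ := by
          rw [mul_assoc, ← Real.rpow_add hp0]
          simp
  linarith [h4, h5]

end Pool.Agent.K1H51.PP
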