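import Pool.Agent.K1H51.PP.Rect

set_option autoImplicit false
set_option linter.unusedSectionVars false

/-! The average of the traces over the shifts, and the exceptional shifts. -/

namespace Pool.Agent.K1H51.PP

open Finset Matrix Pool.Agent.H471R4.BW Pool.Agent.H435R3.Paley Pool.Agent.K1H51.PP.Rect
open Pool.Agent.K1H93.PX (pr)

lemma ofFn_of_length {F : Type} (r : ℕ) (L : List F) (h : L.length = r) : ∃ f : Fin r → F, L = List.ofFn f := by
  subst h
  exact ⟨L.get, (List.ofFn_get L).symm⟩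

lemma count_ofFn {F : Type} [DecidableEq F] (r : ℕ) (f : Fin r → F) (l : F) :
    (List.ofFn f).count l = (univ.filter fun i => f i = l).card := by
  rw [← Multiset.coe_count, ← Fin.univ_val_map, Multiset.count_map]
  have e : (univ.filter fun i => f i = l) = univ.filter fun i => l = f i := by
    ext i
    simp [eq_comm]
  rw [e]
  rfl

variable {p : ℕ} [hp : Fact p.Prime]

lemma char_pr (χ : DirichletCharacter ℂ p) (c : ZMod p) (r : ℕ) (f : Fin r → ZMod p) :
    χ (pr c (List.ofFn f)) = ∏ i, χ (c + f i) := by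
  unfold pr
  rw [List.map_ofFn, List.prod_ofFn, map_prod]
  rfl

/-- the complete sums -/
lemma comp (χ : DirichletCharacter ℂ p) (hχ : χ ≠ 1) (r : ℕ) (hr : 1 ≤ r) (L L' : List (ZMod p))
    (h1 : L.length = r) (h2 : L'.length = r) (l : ZMod p) (h : L.count l + L'.count l = 1) :
    ‖∑ c : ZMod p, χ (pr c L) * star (χ (pr c L'))‖ ≤ (2 * r) * √(p : ℝ) := by
  obtain ⟨f, rfl⟩ := ofFn_of_length r L h1
  obtain ⟨g, rfl⟩ := ofFn_of_length r L' h2
  have h3 := good_all p χ hχ r hr (fun i => (f i).val) (fun i => (g i).val)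
    (fun i => ZMod.val_lt _) (fun i => ZMod.val_lt _) ⟨l.val, by
      rw [count_ofFn, count_ofFn] at h
      have e : ∀ u : Fin r → ZMod p, (univ.filter fun i => (u i).val = l.val) = univ.filter fun i => u i = l := by
        intro u
        ext i
        simp only [mem_filter, mem_univ, true_and]
        exact ⟨fun h => ZMod.val_injective p h, fun h => by rw [h]⟩
      rw [e, e, h]⟩
  refine le_of_eq_of_le ?_ h3
  congr 1
  refine sum_congr rfl fun c _ => ?_
  rw [char_pr, char_pr]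
  simp only [ZMod.natCast_zmod_val]
  rw [RCLike.star_def, map_prod]

section
variable {κ μ : Type} [Fintype κ] [DecidableEq κ] [Fintype μ] [DecidableEq μ]

/-- the trace for the character `χ` and the shift `x` -/
noncomputable def TR (v : κ → ZMod p) (u : μ → ZMod p) (s : ℕ) (χ : DirichletCharacter ℂ p) (x : ZMod p) : ℝ :=
  ‖Matrix.trace ((MR v u (fun y => χ y) x * (MR v u (fun y => χ y) x)ᴴ) ^ (s + 1))‖

/-- the average of the traces -/
theorem mom (χ : DirichletCharacter ℂ p) (hχ : χ ≠ 1) (v : κ → ZMod p) (u : μ → ZMod p)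
    (hv : Function.Injective v) (hu : Function.Injective u) (hc : Fintype.card κ ≤ Fintype.card μ) (s : ℕ) :
    ∑ c : ZMod p, TR v u s χ c ≤
      (2 * (s : ℝ) + 3) ^ (2 * (s + 1)) * ((Fintype.card κ : ℝ) * (Fintype.card μ : ℝ) ^ (s + 1)) * p +
        ((Fintype.card κ : ℝ) * (Fintype.card μ : ℝ)) ^ (s + 1) * ((2 * ((s + 1 : ℕ) : ℝ)) * √(p : ℝ)) := by
  classical
  set T : Wr κ μ (s + 1) → ℂ := fun w => ∑ c : ZMod p,
    χ (pr c (fl v u (s + 1) (st w) w)) * star (χ (pr c (bl v u (s + 1) w))) with hT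
  have h1 : ((∑ c : ZMod p, TR v u s χ c : ℝ) : ℂ) = ∑ w, T w := by
    push_cast
    rw [hT, sum_comm]
    refine sum_congr rfl fun c _ => ?_
    have e := trace_eq v u (fun y => χ y) c (map_one χ) (fun x y => map_mul χ x y) s
    rw [← e, trace_real]
    rfl
  have h2 : ∑ c : ZMod p, TR v u s χ c = ‖∑ w, T w‖ := by
    have h0 : 0 ≤ ∑ c : ZMod p, TR v u s χ c := sum_nonneg fun c _ => norm_nonneg _
    rw [← h1, Complex.norm_real, Real.norm_of_nonneg h0]
  rw [h2]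
  refine (norm_sum_le _ _).trans ?_
  rw [← sum_filter_add_sum_filter_not univ (fun w : Wr κ μ (s + 1) => ∀ l : ZMod p,
      (fl v u (s + 1) (st w) w).count l + (bl v u (s + 1) w).count l ≠ 1)]
  refine add_le_add ?_ ?_
  · have h3 : ∀ w ∈ univ.filter (fun w : Wr κ μ (s + 1) => ∀ l : ZMod p,
        (fl v u (s + 1) (st w) w).count l + (bl v u (s + 1) w).count l ≠ 1), ‖T w‖ ≤ p := by
      intro w _
      refine (norm_sum_le _ _).trans ?_
      calc ∑ c : ZMod p, ‖χ (pr c (fl v u (s + 1) (st w) w)) * star (χ (pr c (bl v u (s + 1) w)))‖ ≤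
          ∑ _c : ZMod p, (1 : ℝ) := by
            refine sum_le_sum fun c _ => ?_
            rw [norm_mul, norm_star]
            exact mul_le_one₀ (DirichletCharacter.norm_le_one _ _) (norm_nonneg _)
              (DirichletCharacter.norm_le_one _ _)
        _ = p := by simp
    refine (sum_le_card_nsmul _ _ _ h3).trans ?_
    rw [nsmul_eq_mul]
    refine mul_le_mul_of_nonneg_right ?_ (Nat.cast_nonneg _)
    have h4 := closed_le v u hv hu hc s
    have h5 : (((univ.filter fun w : Wr κ μ (s + 1) => ∀ l : ZMod p,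
      (fl v u (s + 1) (st w) w).count l + (bl v u (s + 1) w).count l ≠ 1).card : ℕ) : ℝ) ≤
      (((2 * s + 3) ^ (2 * (s + 1)) * (Fintype.card κ * Fintype.card μ ^ (s + 1)) : ℕ) : ℝ) := by
      exact_mod_cast h4
    push_cast at h5
    exact h5
  · have h3 : ∀ w ∈ univ.filter (fun w : Wr κ μ (s + 1) => ¬ ∀ l : ZMod p,
        (fl v u (s + 1) (st w) w).count l + (bl v u (s + 1) w).count l ≠ 1),
        ‖T w‖ ≤ (2 * ((s + 1 : ℕ) : ℝ)) * √(p : ℝ) := by
      intro w hw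
      have hw2 := (mem_filter.1 hw).2
      push Not at hw2
      obtain ⟨l, hl⟩ := hw2
      exact comp χ hχ (s + 1) (by omega) _ _ (length_fl v u _ _ _) (length_bl v u _ _) l hl
    refine (sum_le_card_nsmul _ _ _ h3).trans ?_
    rw [nsmul_eq_mul]
    refine mul_le_mul_of_nonneg_right ?_ (by positivity)
    have h4 := card_le_univ (univ.filter (fun w : Wr κ μ (s + 1) => ¬ ∀ l : ZMod p,
        (fl v u (s + 1) (st w) w).count l + (bl v u (s + 1) w).count l ≠ 1))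
    rw [card_Wr] at h4
    exact_mod_cast h4

/-- a large form gives a large trace -/
theorem large (v : κ → ZMod p) (u : μ → ZMod p) (s : ℕ) (χ : DirichletCharacter ℂ p) (x : ZMod p)
    (f : κ → ℂ) (g : μ → ℂ) (Λ : ℝ) (hΛ : 0 ≤ Λ)
    (h : Λ * (Real.sqrt (∑ a, ‖f a‖ ^ 2) * Real.sqrt (∑ b, ‖g b‖ ^ 2)) <
      ‖∑ a, ∑ b, f a * g b * χ (x + (v a + u b))‖) :
    Λ ^ (2 * (s + 1)) ≤ TR v u s χ x := by
  have h1 := form_le v u (fun y => χ y) x f g s
  set Fs := ∑ a, ‖f a‖ ^ 2 with hF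
  set Gs := ∑ b, ‖g b‖ ^ 2 with hG
  have hF0 : 0 ≤ Fs := sum_nonneg fun _ _ => by positivity
  have hG0 : 0 ≤ Gs := sum_nonneg fun _ _ => by positivity
  have h2 : Λ ^ (2 * (s + 1)) * (Fs ^ (s + 1) * Gs ^ (s + 1)) <
      ‖∑ a, ∑ b, f a * g b * χ (x + (v a + u b))‖ ^ (2 * (s + 1)) := by
    have h3 := pow_lt_pow_left₀ h (by positivity) (n := 2 * (s + 1)) (by omega)
    refine lt_of_eq_of_lt ?_ h3
    rw [mul_pow, mul_pow, pow_mul (Real.sqrt Fs), pow_mul (Real.sqrt Gs), Real.sq_sqrt hF0, Real.sq_sqrt hG0]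
  have h4 : Λ ^ (2 * (s + 1)) * (Fs ^ (s + 1) * Gs ^ (s + 1)) < Fs ^ (s + 1) * Gs ^ (s + 1) * TR v u s χ x :=
    lt_of_lt_of_le h2 h1
  have h5 : 0 < Fs ^ (s + 1) * Gs ^ (s + 1) := by
    rcases (by positivity : (0 : ℝ) ≤ Fs ^ (s + 1) * Gs ^ (s + 1)).lt_or_eq with h6 | h6
    · exact h6
    · rw [← h6] at h4; simp at h4
  rw [mul_comm] at h4
  exact (lt_of_mul_lt_mul_left h4 h5.le).le

end

/-- all weights on `P × Q` -/
def Bd {p : ℕ} (χ : DirichletCharacter ℂ p) (P Q : Finset (ZMod p)) (V : ℝ) : Prop :=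
  ∀ f g : ZMod p → ℂ, ‖∑ a ∈ P, ∑ b ∈ Q, f a * g b * χ (a + b)‖ ≤
    V * (√(∑ a ∈ P, ‖f a‖ ^ 2) * √(∑ b ∈ Q, ‖g b‖ ^ 2))

lemma Bd_symm {p : ℕ} (χ : DirichletCharacter ℂ p) (P Q : Finset (ZMod p)) (V : ℝ) (h : Bd χ P Q V) :
    Bd χ Q P V := by
  intro f g
  rw [sum_comm, mul_comm (√_)]
  refine le_of_eq_of_le ?_ (h g f)
  congr 1
  refine sum_congr rfl fun a _ => sum_congr rfl fun b _ => ?_
  rw [mul_comm (f b), add_comm b]

/-- the exceptional set, `|A| ≤ |B|` -/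
theorem exc_le (χ : DirichletCharacter ℂ p) (hχ : χ ≠ 1) (A B : Finset (ZMod p)) (hAB : A.card ≤ B.card)
    (r : ℕ) (hr : 1 ≤ r) (V : ℝ) (hV : 0 < V) :
    ∃ E : Finset (ZMod p), (E.card : ℝ) * V ^ (2 * r) ≤
      (2 * (r : ℝ) + 1) ^ (2 * r) * ((A.card : ℝ) * (B.card : ℝ) ^ r) * p +
        ((A.card : ℝ) * (B.card : ℝ)) ^ r * ((2 * (r : ℝ)) * √(p : ℝ)) ∧
      ∀ c ∉ E, ∀ f g : ZMod p → ℂ,
        ‖∑ a ∈ A, ∑ b ∈ B, f a * g b * χ (c + (a + b))‖ ≤
          V * (√(∑ a ∈ A, ‖f a‖ ^ 2) * √(∑ b ∈ B, ‖g b‖ ^ 2)) := by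
  classical
  obtain ⟨s, rfl⟩ : ∃ s, r = s + 1 := ⟨r - 1, by omega⟩
  set v : A → ZMod p := Subtype.val with hv
  set u : B → ZMod p := Subtype.val with hu
  refine ⟨univ.filter fun c => V ^ (2 * (s + 1)) ≤ TR v u s χ c, ?_, ?_⟩
  · have h := mom χ hχ v u Subtype.val_injective Subtype.val_injective
      (by rw [Fintype.card_coe, Fintype.card_coe]; exact hAB) s
    rw [Fintype.card_coe, Fintype.card_coe] at h
    have e : 2 * (((s + 1 : ℕ) : ℝ)) + 1 = 2 * (s : ℝ) + 3 := by push_cast; ring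
    rw [e]
    refine le_trans ?_ h
    rw [← nsmul_eq_mul]
    refine (card_nsmul_le_sum _ (fun c => TR v u s χ c) _ fun c hc => (mem_filter.1 hc).2).trans ?_
    exact sum_le_sum_of_subset_of_nonneg (filter_subset _ _) fun c _ _ => norm_nonneg _
  · intro c hc f g
    by_contra hcon
    refine hc (mem_filter.2 ⟨mem_univ _, large v u s χ c (fun a => f a) (fun b => g b) V hV.le ?_⟩)
    have e1 : ∀ (P : Finset (ZMod p)) (f : ZMod p → ℂ), ∑ a : P, ‖f a‖ ^ 2 = ∑ a ∈ P, ‖f a‖ ^ 2 := fun P f =>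
      sum_coe_sort P (fun a => ‖f a‖ ^ 2)
    have e2 : ∑ a : A, ∑ b : B, f a * g b * χ (c + (v a + u b)) =
        ∑ a ∈ A, ∑ b ∈ B, f a * g b * χ (c + (a + b)) := by
      rw [← sum_coe_sort A (fun a => ∑ b ∈ B, f a * g b * χ (c + (a + b)))]
      refine sum_congr rfl fun a _ => ?_
      exact sum_coe_sort B (fun b => f a * g b * χ (c + (a + b)))
    rw [e1, e1, e2]
    exact not_le.1 hcon

/-- from the shifts to the affine images -/
lemma affine (χ : DirichletCharacter ℂ p) (A B : Finset (ZMod p)) (V : ℝ) (x y t : ZMod p) (ht : t ≠ 0)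
    (h : ∀ f g : ZMod p → ℂ, ‖∑ a ∈ A, ∑ b ∈ B, f a * g b * χ ((x + y) / t + (a + b))‖ ≤
          V * (√(∑ a ∈ A, ‖f a‖ ^ 2) * √(∑ b ∈ B, ‖g b‖ ^ 2))) :
    Bd χ (A.image fun a => x + t * a) (B.image fun b => y + t * b) V := by
  intro f g
  have inj : ∀ z : ZMod p, Function.Injective fun a : ZMod p => z + t * a := fun z a a' h =>
    mul_left_cancel₀ ht (add_left_cancel h)
  rw [sum_image fun a _ a' _ h => inj x h, sum_image fun a _ a' _ h => inj x h,
    sum_image fun a _ a' _ h => inj y h]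
  have e1 : ∑ a ∈ A, ∑ b ∈ B.image (fun b => y + t * b), f (x + t * a) * g b * χ (x + t * a + b) =
      χ t * ∑ a ∈ A, ∑ b ∈ B, f (x + t * a) * g (y + t * b) * χ ((x + y) / t + (a + b)) := by
    rw [mul_sum]
    refine sum_congr rfl fun a _ => ?_
    rw [sum_image fun a _ a' _ h => inj y h, mul_sum]
    refine sum_congr rfl fun b _ => ?_
    have e2 : x + t * a + (y + t * b) = t * ((x + y) / t + (a + b)) := by
      field_simp
      ring
    rw [e2, map_mul]
    ring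
  rw [e1, norm_mul]
  refine le_trans ?_ (h (fun a => f (x + t * a)) (fun b => g (y + t * b)))
  exact mul_le_of_le_one_left (norm_nonneg _) (DirichletCharacter.norm_le_one _ _)

/-- the sets -/
lemma Bd_sets {p : ℕ} (χ : DirichletCharacter ℂ p) (P Q : Finset (ZMod p)) (V : ℝ) (h : Bd χ P Q V)
    (A B : Finset (ZMod p)) (hA : A ⊆ P) (hB : B ⊆ Q) :
    ‖∑ a ∈ A, ∑ b ∈ B, χ (a + b)‖ ≤ V * √((A.card : ℝ) * B.card) := by
  classical
  have h1 := h (fun a => if a ∈ A then 1 else 0) (fun b => if b ∈ B then 1 else 0)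
  have e1 : ∀ (P A : Finset (ZMod p)), A ⊆ P → ∑ a ∈ P, ‖(if a ∈ A then (1 : ℂ) else 0)‖ ^ 2 = (A.card : ℝ) := by
    intro P A hA
    have : ∀ a ∈ P, ‖(if a ∈ A then (1 : ℂ) else 0)‖ ^ 2 = if a ∈ A then (1 : ℝ) else 0 := by
      intro a _
      split_ifs <;> simp
    rw [sum_congr rfl this, ← sum_filter, filter_mem_eq_inter, inter_eq_right.2 hA, sum_const, nsmul_eq_mul,
      mul_one]
  have e2 : ∑ a ∈ P, ∑ b ∈ Q, (if a ∈ A then (1 : ℂ) else 0) * (if b ∈ B then 1 else 0) * χ (a + b) =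
      ∑ a ∈ A, ∑ b ∈ B, χ (a + b) := by
    have e3 : ∀ a ∈ P, ∑ b ∈ Q, (if a ∈ A then (1 : ℂ) else 0) * (if b ∈ B then 1 else 0) * χ (a + b) =
        if a ∈ A then ∑ b ∈ B, χ (a + b) else 0 := by
      intro a _
      by_cases ha : a ∈ A
      · simp only [ha, if_true, one_mul, ite_mul, zero_mul]
        rw [← sum_filter, filter_mem_eq_inter, inter_eq_right.2 hB]
      · simp [ha]
    rw [sum_congr rfl e3, ← sum_filter, filter_mem_eq_inter, inter_eq_right.2 hA]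
  rw [e1 P A hA, e1 Q B hB, e2, ← Real.sqrt_mul (Nat.cast_nonneg _)] at h1
  exact h1

end Pool.Agent.K1H51.PP
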