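import Pool.Agent.K1H93.PX.Chr
import Pool.Agent.H435R3.Paley.All

set_option autoImplicit false
set_option linter.unusedSectionVars false

/-! Rectangular matrices `h (c + (v a + u b))`: the trace formula, the number of the closed walks in which no label
occurs exactly once, and the average over `c`. (Adapted from `Pool.Agent.K1H93.PX.Wlk`.) -/

namespace Pool.Agent.K1H51.PP.Rect

open Finset Matrix
open Pool.Agent.K1H93.PG (quad_pow)
open Pool.Agent.K1H93.PX (pr)
open scoped ComplexOrder

/-- the walks with `s` double steps -/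
def Wr (κ μ : Type) : ℕ → Type
  | 0 => Unit
  | s + 1 => (μ × κ) × Wr κ μ s

instance instFintypeWr (κ μ : Type) [Fintype κ] [Fintype μ] : (s : ℕ) → Fintype (Wr κ μ s)
  | 0 => inferInstanceAs (Fintype Unit)
  | s + 1 =>
    letI := instFintypeWr κ μ s
    inferInstanceAs (Fintype ((μ × κ) × Wr κ μ s))

theorem card_Wr (κ μ : Type) [Fintype κ] [Fintype μ] (s : ℕ) :
    Fintype.card (Wr κ μ s) = (Fintype.card κ * Fintype.card μ) ^ s := by
  induction s with
  | zero => exact Fintype.card_unit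
  | succ s ih =>
    have h : Fintype.card (Wr κ μ (s + 1)) = Fintype.card ((μ × κ) × Wr κ μ s) := rfl
    rw [h, Fintype.card_prod, Fintype.card_prod, ih]
    ring

/-- the last vertex -/
def lst {κ μ : Type} : (s : ℕ) → κ → Wr κ μ s → κ
  | 0, x, _ => x
  | s + 1, _, w => lst s w.1.2 w.2

/-- the labels of the forward steps -/
def fl {F κ μ : Type} [Add F] (v : κ → F) (u : μ → F) : (s : ℕ) → κ → Wr κ μ s → List F
  | 0, _, _ => []
  | s + 1, x, w => (v x + u w.1.1) :: fl v u s w.1.2 w.2

/-- the labels of the backward steps -/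
def bl {F κ μ : Type} [Add F] (v : κ → F) (u : μ → F) : (s : ℕ) → Wr κ μ s → List F
  | 0, _ => []
  | s + 1, w => (v w.1.2 + u w.1.1) :: bl v u s w.2

theorem length_fl {F κ μ : Type} [Add F] (v : κ → F) (u : μ → F) :
    ∀ (s : ℕ) (x : κ) (w : Wr κ μ s), (fl v u s x w).length = s
  | 0, _, _ => rfl
  | s + 1, x, w => by simp [fl, length_fl v u s]

theorem length_bl {F κ μ : Type} [Add F] (v : κ → F) (u : μ → F) :
    ∀ (s : ℕ) (w : Wr κ μ s), (bl v u s w).length = s
  | 0, _ => rfl
  | s + 1, w => by simp [bl, length_bl v u s]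

/-- the matrix -/
noncomputable def MR {F κ μ : Type} [CommRing F] (v : κ → F) (u : μ → F) (h : F → ℂ) (x : F) : Matrix κ μ ℂ :=
  Matrix.of fun a b => h (x + (v a + u b))

section trace

variable {F κ μ : Type} [CommRing F] [Fintype κ] [DecidableEq κ] [Fintype μ] (v : κ → F) (u : μ → F) (h : F → ℂ) (c : F)

lemma sum_Wr {E : Type} [AddCommMonoid E] {s : ℕ} (G : Wr κ μ (s + 1) → E) :
    ∑ w, G w = ∑ b : μ, ∑ z : κ, ∑ w : Wr κ μ s, G ((b, z), w) := by
  let F' : (μ × κ) × Wr κ μ s → E := G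
  have e : ∑ w, G w = ∑ w : (μ × κ) × Wr κ μ s, F' w := rfl
  rw [e, Fintype.sum_prod_type, Fintype.sum_prod_type]

theorem pow_apply (h1 : h 1 = 1) (hm : ∀ x y, h (x * y) = h x * h y) (s : ℕ) : ∀ x y : κ,
    ((MR v u h c * (MR v u h c)ᴴ) ^ s) x y =
      ∑ w : Wr κ μ s, if lst s x w = y then h (pr c (fl v u s x w)) * star (h (pr c (bl v u s w))) else 0 := by
  induction s with
  | zero =>
    intro x y
    have e : ∑ w : Wr κ μ 0, (if lst 0 x w = y then h (pr c (fl v u 0 x w)) * star (h (pr c (bl v u 0 w))) else 0) =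
        if x = y then (1 : ℂ) else 0 := by
      have e2 : ∑ w : Wr κ μ 0, (if lst 0 x w = y then h (pr c (fl v u 0 x w)) * star (h (pr c (bl v u 0 w))) else 0) =
          ∑ w : Unit, (if lst (μ := μ) 0 x w = y then
            h (pr c (fl v u 0 x w)) * star (h (pr c (bl v u 0 w))) else 0) := rfl
      rw [e2]
      simp [lst, fl, bl, pr, h1]
    rw [e, pow_zero, Matrix.one_apply]
  | succ s ih =>
    intro x y
    rw [pow_succ', Matrix.mul_apply, sum_Wr]
    have e : ∀ z : κ, (MR v u h c * (MR v u h c)ᴴ) x z =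
        ∑ b : μ, h (c + (v x + u b)) * star (h (c + (v z + u b))) := by
      intro z
      rw [Matrix.mul_apply]
      rfl
    simp only [ih, e]
    rw [Finset.sum_comm (s := univ (α := μ)) (t := univ (α := κ))]
    refine sum_congr rfl fun z _ => ?_
    rw [sum_mul]
    refine sum_congr rfl fun b _ => ?_
    rw [mul_sum]
    refine sum_congr rfl fun w _ => ?_
    have e3 : h (pr c (fl v u (s + 1) x ((b, z), w))) = h (c + (v x + u b)) * h (pr c (fl v u s z w)) := by
      rw [← hm]
      congr 1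
    have e4 : h (pr c (bl v u (s + 1) ((b, z), w))) = h (c + (v z + u b)) * h (pr c (bl v u s w)) := by
      rw [← hm]
      congr 1
    rw [e3, e4]
    change _ = if lst s z w = y then _ else _
    split_ifs with hy
    · rw [star_mul']
      ring
    · rw [mul_zero]

/-- the start of the closed walk -/
def st {s : ℕ} (w : Wr κ μ (s + 1)) : κ := lst s w.1.2 w.2

theorem trace_eq (h1 : h 1 = 1) (hm : ∀ x y, h (x * y) = h x * h y) (s : ℕ) :
    Matrix.trace ((MR v u h c * (MR v u h c)ᴴ) ^ (s + 1)) =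
      ∑ w : Wr κ μ (s + 1), h (pr c (fl v u (s + 1) (st w) w)) * star (h (pr c (bl v u (s + 1) w))) := by
  unfold Matrix.trace
  simp only [Matrix.diag_apply, pow_apply v u h c h1 hm]
  rw [sum_comm]
  refine sum_congr rfl fun w _ => ?_
  have e : ∀ x : κ, lst (s + 1) x w = lst s w.1.2 w.2 := fun x => rfl
  simp only [e]
  rw [sum_ite_eq]
  simp only [mem_univ, if_true]
  rfl

/-- the bilinear form and the trace -/
theorem form_le (f : κ → ℂ) (g : μ → ℂ) (s : ℕ) :
    ‖∑ a, ∑ b, f a * g b * h (c + (v a + u b))‖ ^ (2 * (s + 1)) ≤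
      (∑ a, ‖f a‖ ^ 2) ^ (s + 1) * (∑ b, ‖g b‖ ^ 2) ^ (s + 1) *
        ‖Matrix.trace ((MR v u h c * (MR v u h c)ᴴ) ^ (s + 1))‖ := by
  set y : μ → ℂ := fun b => ∑ a, f a * h (c + (v a + u b)) with hy
  have e1 : ∑ a, ∑ b, f a * g b * h (c + (v a + u b)) = ∑ b, g b * y b := by
    rw [sum_comm]
    refine sum_congr rfl fun b _ => ?_
    rw [hy, mul_sum]
    exact sum_congr rfl fun a _ => by ring
  have e2 : ‖∑ b, g b * y b‖ ^ 2 ≤ (∑ b, ‖g b‖ ^ 2) * ∑ b, ‖y b‖ ^ 2 := by
    have h3 : ‖∑ b, g b * y b‖ ≤ ∑ b, ‖g b‖ * ‖y b‖ :=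
      (norm_sum_le _ _).trans (sum_le_sum fun b _ => (norm_mul _ _).le)
    calc ‖∑ b, g b * y b‖ ^ 2 ≤ (∑ b, ‖g b‖ * ‖y b‖) ^ 2 := pow_le_pow_left₀ (norm_nonneg _) h3 2
      _ ≤ _ := sum_mul_sq_le_sq_mul_sq _ _ _
  set H : Matrix κ κ ℂ := MR v u h c * (MR v u h c)ᴴ with hH
  have e3 : ((∑ b, ‖y b‖ ^ 2 : ℝ) : ℂ) = star (star f) ⬝ᵥ (H *ᵥ (star f)) := by
    rw [hH, ← Matrix.mulVec_mulVec, Matrix.dotProduct_mulVec]
    have e4 : (MR v u h c)ᴴ *ᵥ star f = star y := by
      funext b
      rw [Matrix.mulVec, dotProduct, Pi.star_apply, hy]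
      simp only [Matrix.conjTranspose_apply, MR, Matrix.of_apply, Pi.star_apply]
      rw [star_sum]
      exact sum_congr rfl fun a _ => by rw [star_mul']; ring
    have e5 : star (star f) ᵥ* MR v u h c = y := by
      funext b
      rw [star_star, Matrix.vecMul, dotProduct, hy]
      rfl
    rw [e4, e5, dotProduct]
    push_cast
    refine sum_congr rfl fun b _ => ?_
    rw [Pi.star_apply, ← Complex.mul_conj']
    rfl
  have e6 : ∑ b, ‖y b‖ ^ 2 = ‖star (star f) ⬝ᵥ (H *ᵥ (star f))‖ := by
    rw [← e3, Complex.norm_real, Real.norm_of_nonneg (sum_nonneg fun b _ => by positivity)]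
  have e7 := quad_pow H (Matrix.posSemidef_self_mul_conjTranspose _) (star f) (s + 1) (by omega)
  rw [← e6] at e7
  have e8 : ∑ i, ‖(star f) i‖ ^ 2 = ∑ i, ‖f i‖ ^ 2 := sum_congr rfl fun i _ => by rw [Pi.star_apply, norm_star]
  rw [e8] at e7
  rw [e1, pow_mul]
  calc (‖∑ b, g b * y b‖ ^ 2) ^ (s + 1) ≤ ((∑ b, ‖g b‖ ^ 2) * ∑ b, ‖y b‖ ^ 2) ^ (s + 1) :=
        pow_le_pow_left₀ (by positivity) e2 _
    _ = (∑ b, ‖g b‖ ^ 2) ^ (s + 1) * (∑ b, ‖y b‖ ^ 2) ^ (s + 1) := mul_pow _ _ _
    _ ≤ (∑ b, ‖g b‖ ^ 2) ^ (s + 1) * ((∑ i, ‖f i‖ ^ 2) ^ (s + 1) *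
        ‖Matrix.trace (H ^ (s + 1))‖) := mul_le_mul_of_nonneg_left e7 (by positivity)
    _ = _ := by ring

/-- the trace is a nonnegative real number -/
theorem trace_real (s : ℕ) : Matrix.trace ((MR v u h c * (MR v u h c)ᴴ) ^ s) =
    ((‖Matrix.trace ((MR v u h c * (MR v u h c)ᴴ) ^ s)‖ : ℝ) : ℂ) := by
  have hp : ((MR v u h c * (MR v u h c)ᴴ) ^ s).PosSemidef :=
    (Matrix.posSemidef_self_mul_conjTranspose _).pow s
  have h0 := hp.trace_nonneg
  exact (Complex.eq_coe_norm_of_nonneg h0)

end trace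

section count

variable {F κ μ : Type} [Field F] [DecidableEq F] [Fintype κ] [DecidableEq κ] [Fintype μ] [DecidableEq μ]
  (v : κ → F) (u : μ → F)

/-- the number of the entries of the list outside `S` -/
def nw (S : Finset F) (L : List F) : ℕ := (L.toFinset \ S).card

lemma nw_mem {S : Finset F} {l : F} {L : List F} (h : l ∈ S) : nw S (l :: L) = nw S L := by
  unfold nw
  rw [List.toFinset_cons, insert_sdiff_of_mem _ h]

lemma nw_not {S : Finset F} {l : F} {L : List F} (h : l ∉ S) : nw S (l :: L) = nw (insert l S) L + 1 := by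
  unfold nw
  have e : (l :: L).toFinset \ S = insert l (L.toFinset \ insert l S) := by
    ext a
    simp only [List.toFinset_cons, mem_sdiff, mem_insert, List.mem_toFinset, not_or]
    by_cases ha : a = l
    · simp [ha, h]
    · simp [ha]
  rw [e, card_insert_of_notMem (by simp)]

/-- the labels in the order of the walk -/
def il : (s : ℕ) → κ → Wr κ μ s → List F
  | 0, _, _ => []
  | s + 1, x, w => (v x + u w.1.1) :: (v w.1.2 + u w.1.1) :: il s w.1.2 w.2

lemma il_count (l : F) : ∀ (s : ℕ) (x : κ) (w : Wr κ μ s),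
    (il v u s x w).count l = (fl v u s x w).count l + (bl v u s w).count l
  | 0, _, _ => by simp [il, fl, bl]
  | s + 1, x, w => by
    simp only [il, fl, bl, List.count_cons, il_count l s]
    ring

lemma il_length : ∀ (s : ℕ) (x : κ) (w : Wr κ μ s), (il v u s x w).length = 2 * s
  | 0, _, _ => by simp [il]
  | s + 1, x, w => by
    simp only [il, List.length_cons, il_length s]
    ring

lemma step {ν : Type} [Fintype ν] (t : ν → F) (ht : Function.Injective t) (S : Finset F) (q a : ℕ)
    (hS : S.card ≤ q) (y : F)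
    (G : ν → ℕ) (h1 : ∀ b, y + t b ∈ S → G b ≤ a) (h2 : ∀ b, y + t b ∉ S → Fintype.card ν * G b ≤ a) :
    ∑ b, G b ≤ (q + 1) * a := by
  rcases isEmpty_or_nonempty ν with he | hne
  · simp
  have hN : 0 < Fintype.card ν := Fintype.card_pos
  rw [← sum_filter_add_sum_filter_not univ (fun b => y + t b ∈ S), add_mul, one_mul]
  refine add_le_add ?_ ?_
  · refine (sum_le_card_nsmul _ _ a fun b hb => h1 b (mem_filter.1 hb).2).trans ?_
    rw [smul_eq_mul]
    refine Nat.mul_le_mul_right a (le_trans ?_ hS)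
    refine card_le_card_of_injOn (fun b => y + t b) (fun b hb => ?_) (fun b _ b' _ h => ht (add_left_cancel h))
    rw [mem_coe, mem_filter] at hb
    exact hb.2
  · refine Nat.le_of_mul_le_mul_left ?_ hN
    rw [mul_sum]
    refine (sum_le_card_nsmul _ _ a fun b hb => h2 b (mem_filter.1 hb).2).trans ?_
    rw [smul_eq_mul]
    exact Nat.mul_le_mul_right a (card_le_univ _)

/-- the number of the walks from `x` with at most `k` labels outside `S` -/
noncomputable def PW (s : ℕ) (S : Finset F) (k : ℕ) (x : κ) : ℕ :=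
  (univ.filter fun w : Wr κ μ s => nw S (il v u s x w) ≤ k).card

/-- the half step -/
noncomputable def QW (s : ℕ) (S : Finset F) (k : ℕ) (b : μ) : ℕ :=
  ∑ z : κ, (univ.filter fun w : Wr κ μ s => nw S ((v z + u b) :: il v u s z w) ≤ k).card

lemma PW_succ (s : ℕ) (S : Finset F) (k : ℕ) (x : κ) : PW v u (s + 1) S k x =
    ∑ b : μ, ∑ z : κ, (univ.filter fun w : Wr κ μ s =>
      nw S ((v x + u b) :: (v z + u b) :: il v u s z w) ≤ k).card := by
  unfold PW
  rw [card_filter, sum_Wr]
  refine sum_congr rfl fun b _ => sum_congr rfl fun z _ => ?_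
  rw [card_filter]
  rfl

lemma QW_le (hv : Function.Injective v) (hc : Fintype.card κ ≤ Fintype.card μ) (s : ℕ)
    (ih : ∀ (S : Finset F) (q k : ℕ) (x : κ), S.card ≤ q →
      PW v u s S k x ≤ (q + 2 * s + 1) ^ (2 * s) * Fintype.card μ ^ k)
    (S : Finset F) (q k : ℕ) (b : μ) (hS : S.card ≤ q) :
    QW v u s S k b ≤ (q + 2 * s + 2) ^ (2 * s + 1) * Fintype.card μ ^ k := by
  have h := step v hv S q ((q + 2 * s + 2) ^ (2 * s) * Fintype.card μ ^ k) hS (u b)
    (fun z => (univ.filter fun w : Wr κ μ s => nw S ((v z + u b) :: il v u s z w) ≤ k).card) ?_ ?_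
  · refine h.trans ?_
    rw [pow_succ (q + 2 * s + 2) (2 * s)]
    calc (q + 1) * ((q + 2 * s + 2) ^ (2 * s) * Fintype.card μ ^ k) ≤
        (q + 2 * s + 2) * ((q + 2 * s + 2) ^ (2 * s) * Fintype.card μ ^ k) :=
          Nat.mul_le_mul_right _ (by omega)
      _ = _ := by ring
  · intro z hz
    have e : ∀ w : Wr κ μ s, nw S ((v z + u b) :: il v u s z w) = nw S (il v u s z w) := fun w =>
      nw_mem (by rwa [add_comm])
    simp only [e]
    refine (ih S q k z hS).trans (Nat.mul_le_mul_right _ (Nat.pow_le_pow_left (by omega) _))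
  · intro z hz
    have e : ∀ w : Wr κ μ s, nw S ((v z + u b) :: il v u s z w) =
        nw (insert (v z + u b) S) (il v u s z w) + 1 :=
      fun w => nw_not (by rwa [add_comm])
    simp only [e]
    rcases Nat.eq_zero_or_pos k with hk | hk
    · rw [hk]
      simp
    · obtain ⟨k', rfl⟩ : ∃ k', k = k' + 1 := ⟨k - 1, by omega⟩
      simp only [Nat.add_le_add_iff_right]
      have h3 := ih (insert (v z + u b) S) (q + 1) k' z
        ((card_insert_le _ _).trans (by omega))
      calc Fintype.card κ * PW v u s (insert (v z + u b) S) k' z ≤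
          Fintype.card μ * ((q + 1 + 2 * s + 1) ^ (2 * s) * Fintype.card μ ^ k') :=
            Nat.mul_le_mul hc h3
        _ = (q + 1 + 2 * s + 1) ^ (2 * s) * Fintype.card μ ^ (k' + 1) := by ring
        _ = _ := by
          congr 2
          ring

theorem PW_le (hv : Function.Injective v) (hu : Function.Injective u) (hc : Fintype.card κ ≤ Fintype.card μ)
    (s : ℕ) : ∀ (S : Finset F) (q k : ℕ) (x : κ), S.card ≤ q →
      PW v u s S k x ≤ (q + 2 * s + 1) ^ (2 * s) * Fintype.card μ ^ k := by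
  induction s with
  | zero =>
    intro S q k x hS
    have hN : 0 < Fintype.card μ := (Fintype.card_pos_iff.2 ⟨x⟩).trans_le hc
    refine (card_le_univ _).trans ?_
    rw [card_Wr]
    simp only [Nat.mul_zero, pow_zero, one_mul]
    exact Nat.pow_pos hN
  | succ s ih =>
    intro S q k x hS
    rw [PW_succ]
    have h := step u hu S q ((q + 2 * s + 3) ^ (2 * s + 1) * Fintype.card μ ^ k) hS (v x)
      (fun b => ∑ z : κ, (univ.filter fun w : Wr κ μ s =>
        nw S ((v x + u b) :: (v z + u b) :: il v u s z w) ≤ k).card) ?_ ?_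
    · refine h.trans ?_
      calc (q + 1) * ((q + 2 * s + 3) ^ (2 * s + 1) * Fintype.card μ ^ k) ≤
          (q + 2 * s + 3) * ((q + 2 * s + 3) ^ (2 * s + 1) * Fintype.card μ ^ k) :=
            Nat.mul_le_mul_right _ (by omega)
        _ = (q + 2 * s + 3) ^ (2 * s + 2) * Fintype.card μ ^ k := by
          rw [pow_succ (q + 2 * s + 3) (2 * s + 1)]
          ring
        _ = _ := by
          have e1 : q + 2 * s + 3 = q + 2 * (s + 1) + 1 := by ring
          have e2 : 2 * s + 2 = 2 * (s + 1) := by ring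
          rw [e1, e2]
    · intro b hb
      have e : ∀ (z : κ) (w : Wr κ μ s), nw S ((v x + u b) :: (v z + u b) :: il v u s z w) =
          nw S ((v z + u b) :: il v u s z w) := fun z w => nw_mem hb
      simp only [e]
      exact (QW_le v u hv hc s ih S q k b hS).trans
        (Nat.mul_le_mul_right _ (Nat.pow_le_pow_left (by omega) _))
    · intro b hb
      have e : ∀ (z : κ) (w : Wr κ μ s), nw S ((v x + u b) :: (v z + u b) :: il v u s z w) =
          nw (insert (v x + u b) S) ((v z + u b) :: il v u s z w) + 1 := fun z w => nw_not hb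
      simp only [e]
      rcases Nat.eq_zero_or_pos k with hk | hk
      · rw [hk]
        simp
      · obtain ⟨k', rfl⟩ : ∃ k', k = k' + 1 := ⟨k - 1, by omega⟩
        simp only [Nat.add_le_add_iff_right]
        have h3 := QW_le v u hv hc s ih (insert (v x + u b) S) (q + 1) k' b
          ((card_insert_le _ _).trans (by omega))
        calc Fintype.card μ * QW v u s (insert (v x + u b) S) k' b ≤
            Fintype.card μ * ((q + 1 + 2 * s + 2) ^ (2 * s + 1) * Fintype.card μ ^ k') :=
              Nat.mul_le_mul_left _ h3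
          _ = (q + 1 + 2 * s + 2) ^ (2 * s + 1) * Fintype.card μ ^ (k' + 1) := by ring
          _ = _ := by
            congr 2
            ring

open Classical in
/-- the number of the closed walks in which no label occurs exactly once -/
theorem closed_le (hv : Function.Injective v) (hu : Function.Injective u)
    (hc : Fintype.card κ ≤ Fintype.card μ) (s : ℕ) :
    (univ.filter fun w : Wr κ μ (s + 1) => ∀ l : F,
      (fl v u (s + 1) (st w) w).count l + (bl v u (s + 1) w).count l ≠ 1).card ≤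
      (2 * s + 3) ^ (2 * (s + 1)) * (Fintype.card κ * Fintype.card μ ^ (s + 1)) := by
  classical
  have h1 : (univ.filter fun w : Wr κ μ (s + 1) => ∀ l : F,
      (fl v u (s + 1) (st w) w).count l + (bl v u (s + 1) w).count l ≠ 1) ⊆
      univ.biUnion fun x : κ => univ.filter fun w : Wr κ μ (s + 1) =>
        nw (∅ : Finset F) (il v u (s + 1) x w) ≤ s + 1 := by
    intro w hw
    have hw2 := (mem_filter.1 hw).2
    refine mem_biUnion.2 ⟨st w, mem_univ _, mem_filter.2 ⟨mem_univ _, ?_⟩⟩
    unfold nw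
    rw [sdiff_empty]
    have h3 : (il v u (s + 1) (st w) w).toFinset.card * 2 ≤ (il v u (s + 1) (st w) w).length := by
      rw [← List.sum_toFinset_count_eq_length, ← smul_eq_mul]
      refine card_nsmul_le_sum _ _ 2 fun l hl => ?_
      have h4 := hw2 l
      rw [← il_count] at h4
      have h5 : 0 < (il v u (s + 1) (st w) w).count l := List.count_pos_iff.2 (List.mem_toFinset.1 hl)
      omega
    rw [il_length] at h3
    omega
  refine (card_le_card h1).trans (card_biUnion_le.trans ?_)
  refine (sum_le_card_nsmul _ _ ((2 * s + 3) ^ (2 * (s + 1)) * Fintype.card μ ^ (s + 1)) fun x _ => ?_).trans ?_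
  · have h2 := PW_le v u hv hu hc (s + 1) ∅ 0 (s + 1) x (by simp)
    have e : 0 + 2 * (s + 1) + 1 = 2 * s + 3 := by ring
    rw [e] at h2
    exact h2
  · rw [smul_eq_mul, card_univ]
    apply le_of_eq
    ring

end count

end Pool.Agent.K1H51.PP.Rect
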