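import Pool.Agent.K1H51.PP.Main

set_option autoImplicit false

/-! Sets with a little more than `(log p) ^ 2` elements. -/

namespace Pool.Agent.K1H51.PP

open Finset

/-- small sets -/
theorem main4 (ε : ℝ) (hε : 0 < ε) : ∃ c : ℝ, 0 < c ∧ ∃ p₀ : ℕ, ∀ (p : ℕ) [Fact p.Prime], p₀ ≤ p →
    ∀ χ : DirichletCharacter ℂ p, χ ≠ 1 → ∀ (A B : Finset (ZMod p)) (N : ℝ),
    (Real.log p) ^ (2 + ε) ≤ N → N ≤ (p : ℝ) ^ c → (A.card : ℝ) ≤ N → (B.card : ℝ) ≤ N →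
    ∃ E : Finset (ZMod p), (E.card : ℝ) ≤ (p : ℝ) ^ (1 - c) ∧
      ∀ x y t : ZMod p, t ≠ 0 → (x + y) / t ∉ E →
        Bd χ (A.image fun a => x + t * a) (B.image fun b => y + t * b) (N ^ (1 - c)) := by
  set c : ℝ := ε / (10 * (2 + ε)) with hc
  have hc0 : 0 < c := by positivity
  have hc1 : c ≤ 1 / 10 := by
    rw [hc, div_le_div_iff₀ (by positivity) (by norm_num)]
    nlinarith
  have hcε : 1 / 2 + 1 / (2 + ε) = 1 - 5 * c := by
    rw [hc]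
    field_simp
    ring
  have hev : ∃ p₀ : ℕ, ∀ p : ℕ, p₀ ≤ p → 2 ≤ (p : ℝ) ^ c ∧ Real.log p ≤ (p : ℝ) ^ (1 / (2 + ε)) ∧ 3 ≤ Real.log p := by
    have h1 := ((tendsto_rpow_atTop hc0).comp (tendsto_natCast_atTop_atTop (R := ℝ))).eventually_ge_atTop 2
    have h2 := (isLittleO_log_rpow_atTop (by positivity : 0 < 1 / (2 + ε))).bound (by norm_num : (0 : ℝ) < 1)
    have h2' := (tendsto_natCast_atTop_atTop (R := ℝ)).eventually h2
    have h3 := (Real.tendsto_log_atTop.comp (tendsto_natCast_atTop_atTop (R := ℝ))).eventually_ge_atTop 3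
    obtain ⟨p₀, hp₀⟩ := Filter.eventually_atTop.1 ((h1.and h2').and h3)
    refine ⟨p₀, fun p hp => ?_⟩
    obtain ⟨⟨a1, a2⟩, a3⟩ := hp₀ p hp
    refine ⟨a1, ?_, a3⟩
    rw [one_mul, Real.norm_of_nonneg (Real.rpow_nonneg (Nat.cast_nonneg _) _)] at a2
    exact (le_abs_self _).trans a2
  obtain ⟨p₀, hp₀⟩ := hev
  refine ⟨c, hc0, p₀, fun p hpf hpp χ hχ A B N hN1 hN2 hA hB => ?_⟩
  obtain ⟨g1, g2, g3⟩ := hp₀ p hpp
  have hp0 : (0 : ℝ) < p := by exact_mod_cast hpf.out.pos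
  have hp1 : (1 : ℝ) ≤ p := by exact_mod_cast hpf.out.one_lt.le
  set L : ℝ := Real.log p with hL
  have hL0 : 0 < L := by linarith
  have hpL : (p : ℝ) = Real.exp L := (Real.exp_log hp0).symm
  have hN0 : 0 < N := (Real.rpow_pos_of_pos hL0 _).trans_le hN1
  set l : ℝ := Real.log N with hl
  have hNl : N = Real.exp l := (Real.exp_log hN0).symm
  have hl2 : 2 ≤ l := by
    have h1 : (3 : ℝ) ^ (2 : ℝ) ≤ N := by
      calc (3 : ℝ) ^ (2 : ℝ) ≤ L ^ (2 : ℝ) := Real.rpow_le_rpow (by norm_num) g3 (by norm_num)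
        _ ≤ L ^ (2 + ε) := Real.rpow_le_rpow_of_exponent_le (by linarith) (by linarith)
        _ ≤ N := hN1
    have h2 : (9 : ℝ) ≤ N := by
      refine le_trans ?_ h1
      norm_num
    rw [hl, Real.le_log_iff_exp_le hN0]
    have h3 : Real.exp 2 = Real.exp 1 * Real.exp 1 := by rw [← Real.exp_add]; norm_num
    have h4 := Real.exp_one_lt_d9
    have h5 := Real.exp_pos 1
    nlinarith
  have hl0 : 0 < l := by linarith
  have hlc : l ≤ c * L := by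
    have h1 := Real.log_le_log hN0 hN2
    rwa [Real.log_rpow hp0] at h1
  -- the number of steps
  set r : ℕ := ⌊L / (2 * l)⌋₊ with hr
  have hr1 : (r : ℝ) ≤ L / (2 * l) := Nat.floor_le (by positivity)
  have hr2 : L / (2 * l) < r + 1 := Nat.lt_floor_add_one _
  have hr3 : 2 * r * l ≤ L := by
    rw [le_div_iff₀ (by positivity)] at hr1
    linarith
  have hr4 : L ≤ 2 * (r + 1) * l := by
    rw [div_lt_iff₀ (by positivity)] at hr2
    linarith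
  have hr5 : 1 ≤ r := by
    rw [hr]
    apply Nat.le_floor
    rw [Nat.cast_one, le_div_iff₀ (by positivity)]
    nlinarith
  have hr0 : (0 : ℝ) < r := by exact_mod_cast hr5
  have hr6 : 2 * (r : ℝ) + 1 ≤ L := by
    have h1 : 2 * (r : ℝ) * 2 ≤ L := by nlinarith
    nlinarith
  -- powers of `N`
  have hNp : ∀ k : ℕ, N ^ k = Real.exp (k * l) := fun k => by
    rw [hNl, ← Real.exp_nat_mul]
  have hX2 : N ^ (2 * r) ≤ p := by
    rw [hNp, hpL, Real.exp_le_exp]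
    push_cast
    linarith
  have hX1 : √(p : ℝ) ≤ N ^ (r + 1) := by
    rw [hNp, Real.sqrt_eq_rpow, hpL, ← Real.exp_mul, Real.exp_le_exp]
    push_cast
    linarith
  have hX0 : 0 < N ^ r := pow_pos hN0 _
  obtain ⟨E, h3, h4⟩ := main0 p χ hχ A B r hr5 (N ^ (1 - c)) (Real.rpow_pos_of_pos hN0 _)
  refine ⟨E, ?_, h4⟩
  have hm : min (A.card : ℝ) B.card ≤ N := (min_le_left _ _).trans hA
  have hM : max (A.card : ℝ) B.card ≤ N := max_le hA hB
  have hm0 : 0 ≤ min (A.card : ℝ) B.card := le_min (Nat.cast_nonneg _) (Nat.cast_nonneg _)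
  have hM0 : 0 ≤ max (A.card : ℝ) B.card := (Nat.cast_nonneg _).trans (le_max_left _ _)
  have k1 : min (A.card : ℝ) B.card * max (A.card : ℝ) B.card ^ r ≤ N * N ^ r :=
    mul_le_mul hm (pow_le_pow_left₀ hM0 hM r) (pow_nonneg hM0 r) hN0.le
  have k2 : ((A.card : ℝ) * B.card) ^ r ≤ N ^ r * N ^ r := by
    rw [← mul_pow]
    exact pow_le_pow_left₀ (mul_nonneg (Nat.cast_nonneg _) (Nat.cast_nonneg _)) (mul_le_mul hA hB (Nat.cast_nonneg _) hN0.le) r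
  -- the constant
  have k3 : (2 * (r : ℝ) + 1) ^ (2 * r) ≤ (p : ℝ) ^ (1 / (2 + ε)) := by
    have h5 : L ≤ N ^ (1 / (2 + ε)) := by
      calc L = (L ^ (2 + ε)) ^ (1 / (2 + ε)) := by
            rw [← Real.rpow_mul hL0.le]
            have : (2 + ε) * (1 / (2 + ε)) = 1 := by field_simp
            rw [this, Real.rpow_one]
        _ ≤ _ := Real.rpow_le_rpow (Real.rpow_nonneg hL0.le _) hN1 (by positivity)
    calc (2 * (r : ℝ) + 1) ^ (2 * r) ≤ L ^ (2 * r) := pow_le_pow_left₀ (by positivity) hr6 _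
      _ ≤ (N ^ (1 / (2 + ε))) ^ (2 * r) := pow_le_pow_left₀ hL0.le h5 _
      _ = (N ^ (2 * r)) ^ (1 / (2 + ε)) := by
          rw [pw _ _ hN0.le, ← Real.rpow_natCast, ← Real.rpow_mul hN0.le]
          congr 1
          ring
      _ ≤ _ := Real.rpow_le_rpow (by positivity) hX2 (by positivity)
  have k4 : 2 * (r : ℝ) ≤ (p : ℝ) ^ (1 / (2 + ε)) := by linarith
  -- the power of `V`
  have k5 : N ^ r * N ^ r * (p : ℝ) ^ (-c) ≤ (N ^ (1 - c)) ^ (2 * r) := by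
    rw [pw _ _ hN0.le]
    have h5 : N ^ ((1 - c) * ((2 * r : ℕ) : ℝ)) = N ^ r * N ^ r * (N ^ (2 * r)) ^ (-c) := by
      rw [← pow_add, ← two_mul, ← Real.rpow_natCast, ← Real.rpow_mul hN0.le, ← Real.rpow_add hN0]
      congr 1
      ring
    rw [h5]
    refine mul_le_mul_of_nonneg_left ?_ (by positivity)
    rw [Real.rpow_neg hp0.le, Real.rpow_neg (by positivity)]
    exact inv_anti₀ (Real.rpow_pos_of_pos (by positivity) _) (Real.rpow_le_rpow (by positivity) hX2 hc0.le)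
  set Q : ℝ := (p : ℝ) ^ (1 / (2 + ε)) with hQ
  have hQ0 : 0 < Q := Real.rpow_pos_of_pos hp0 _
  have k6 : (E.card : ℝ) * (N ^ r * N ^ r * (p : ℝ) ^ (-c)) ≤
      Q * (N * N ^ r) * p + Q * (N ^ r * N ^ r) * √(p : ℝ) := by
    calc _ ≤ (E.card : ℝ) * (N ^ (1 - c)) ^ (2 * r) := mul_le_mul_of_nonneg_left k5 (Nat.cast_nonneg _)
      _ ≤ _ := h3
      _ ≤ _ := add_le_add (mul_le_mul_of_nonneg_right (mul_le_mul k3 k1 (mul_nonneg hm0 (pow_nonneg hM0 r))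
          hQ0.le) hp0.le) (mul_le_mul_of_nonneg_right (mul_le_mul k4 k2 (pow_nonneg (mul_nonneg
            (Nat.cast_nonneg _) (Nat.cast_nonneg _)) r) hQ0.le) (Real.sqrt_nonneg _))
  have k7 : Q * (N * N ^ r) * p ≤ Q * N ^ 2 * √(p : ℝ) * (N ^ r * N ^ r) := by
    have h5 : (p : ℝ) ≤ √(p : ℝ) * (N ^ r * N) := by
      calc (p : ℝ) = √(p : ℝ) * √(p : ℝ) := (Real.mul_self_sqrt hp0.le).symm
        _ ≤ √(p : ℝ) * (N ^ r * N) := by
            rw [← pow_succ]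
            gcongr
    calc Q * (N * N ^ r) * p ≤ Q * (N * N ^ r) * (√(p : ℝ) * (N ^ r * N)) := by gcongr
      _ = _ := by ring
  have k8 : (E.card : ℝ) * (p : ℝ) ^ (-c) ≤ (Q * N ^ 2 + Q) * √(p : ℝ) := by
    have h5 : (E.card : ℝ) * (p : ℝ) ^ (-c) * (N ^ r * N ^ r) ≤ (Q * N ^ 2 + Q) * √(p : ℝ) * (N ^ r * N ^ r) := by
      calc _ = (E.card : ℝ) * (N ^ r * N ^ r * (p : ℝ) ^ (-c)) := by ring
        _ ≤ _ := k6
        _ ≤ Q * N ^ 2 * √(p : ℝ) * (N ^ r * N ^ r) + Q * (N ^ r * N ^ r) * √(p : ℝ) := by linarith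
        _ = _ := by ring
    exact le_of_mul_le_mul_right h5 (by positivity)
  have hN1' : (1 : ℝ) ≤ N := by
    rw [hNl]
    exact Real.one_le_exp hl0.le
  have k9 : N ^ 2 ≤ (p : ℝ) ^ (2 * c) := by
    calc N ^ 2 ≤ ((p : ℝ) ^ c) ^ 2 := pow_le_pow_left₀ hN0.le hN2 2
      _ = _ := by
        rw [pw _ _ hp0.le]
        congr 1
        push_cast
        ring
  have k10 : (Q * N ^ 2 + Q) ≤ 2 * (Q * (p : ℝ) ^ (2 * c)) := by
    have h5 : Q ≤ Q * N ^ 2 := le_mul_of_one_le_right hQ0.le (one_le_pow₀ hN1')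
    have h6 : Q * N ^ 2 ≤ Q * (p : ℝ) ^ (2 * c) := by gcongr
    linarith
  calc (E.card : ℝ) = (E.card : ℝ) * (p : ℝ) ^ (-c) * (p : ℝ) ^ c := by
        rw [mul_assoc, ← Real.rpow_add hp0]
        simp
    _ ≤ (Q * N ^ 2 + Q) * √(p : ℝ) * (p : ℝ) ^ c := by gcongr
    _ ≤ (2 * (Q * (p : ℝ) ^ (2 * c))) * √(p : ℝ) * (p : ℝ) ^ c := by gcongr
    _ ≤ ((p : ℝ) ^ c * (Q * (p : ℝ) ^ (2 * c))) * √(p : ℝ) * (p : ℝ) ^ c := by gcongr
    _ = (p : ℝ) ^ (1 - c) := by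
        rw [hQ, Real.sqrt_eq_rpow, ← Real.rpow_add hp0, ← Real.rpow_add hp0, ← Real.rpow_add hp0,
          ← Real.rpow_add hp0]
        congr 1
        linarith

end Pool.Agent.K1H51.PP
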